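import Pool.Agent.Helper61.QT.GoalsH

/-!
# Project QT, packet A-DES2: descent from the box to `X` and to the splitting of the bundle
-/

set_option autoImplicit false

open Set

namespace Pool.Agent.Helper82.QT

open Pool.Agent.Helper61 Pool.Agent.Helper61.QG Pool.Agent.Helper61.QT
open Pool.Agent.Helper61.QS (V En tr rk R4)
open Pool.Agent.Helper61.QM (Model W2 Mab pol2 act2)

theorem norm_expI (τ : ℝ) : ‖Complex.exp (τ * Complex.I)‖ = 1 := Complex.norm_exp_ofReal_mul_I τ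

theorem act2_act2 (a b : ℤ) (ζ ω ζ' ω' : ℂ) (P : W2) :
    act2 a b ζ ω (act2 a b ζ' ω' P) = act2 a b (ζ * ζ') (ω * ω') P := by
  simp only [act2, mul_zpow, Prod.mk.injEq]
  refine ⟨⟨?_, ?_⟩, ?_, ?_⟩ <;> ring

theorem act2_one (a b : ℤ) (P : W2) : act2 a b 1 1 P = P := by
  simp only [act2, one_zpow, one_mul]

theorem act2_mem (a b : ℤ) (ζ ω : ℂ) (hζ : ‖ζ‖ = 1) (hω : ‖ω‖ = 1) (P : W2)
    (hP : P ∈ (Mab a b).X) : act2 a b ζ ω P ∈ (Mab a b).X := by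
  obtain ⟨h1, h2⟩ := hP
  refine ⟨?_, ?_⟩
  · simp only [act2, norm_mul, norm_zpow, hζ, hω, one_zpow, one_mul]
    exact h1
  · simp only [act2, norm_mul, norm_zpow, hζ, hω, one_zpow, one_mul]
    exact h2

theorem pol2_mem (a b : ℤ) (x : R4) : pol2 x ∈ (Mab a b).X := by
  have e1 := norm_expI x.2.2.1
  have e2 := norm_expI x.2.2.2
  refine ⟨?_, ?_⟩
  · simp only [pol2, norm_mul, e1, one_mul, Complex.norm_real, Real.norm_eq_abs, sq_abs]
    exact Real.cos_sq_add_sin_sq _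
  · simp only [pol2, norm_mul, e2, one_mul, Complex.norm_real, Real.norm_eq_abs, sq_abs]
    exact Real.cos_sq_add_sin_sq _

theorem continuous_q2 (a b : ℤ) :
    Continuous fun z : (ℝ × ℝ) × R4 => act2 a b (Complex.exp (z.1.1 * Complex.I))
      (Complex.exp (z.1.2 * Complex.I)) (pol2 z.2) := by
  have h : (fun z : (ℝ × ℝ) × R4 => act2 a b (Complex.exp (z.1.1 * Complex.I))
      (Complex.exp (z.1.2 * Complex.I)) (pol2 z.2)) =
      fun z : (ℝ × ℝ) × R4 =>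
        ((Complex.exp (z.1.1 * Complex.I) * Complex.exp (b * (z.1.2 * Complex.I)) *
            (pol2 z.2).1.1,
          Complex.exp (z.1.1 * Complex.I) * (pol2 z.2).1.2),
        (Complex.exp (a * (z.1.1 * Complex.I)) * Complex.exp (z.1.2 * Complex.I) *
            (pol2 z.2).2.1,
          Complex.exp (z.1.2 * Complex.I) * (pol2 z.2).2.2)) := by
    funext z
    simp only [act2, Complex.exp_int_mul]
  have hp : Continuous pol2 := by
    unfold pol2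
    fun_prop
  rw [h]
  fun_prop

theorem descend (hE1 : G_E1) (hE2 : G_E2) (a b : ℤ) (hab : b = 0 ∨ (a = 1 ∧ b = 2))
    (Y : Type) [TopologicalSpace Y] (f : R4 → Y) (hf : Compat2 a b f)
    (hc : ContinuousOn f Box2) :
    ∃ F : W2 → Y, ContinuousOn F (Mab a b).X ∧
      (∀ ζ ω : ℂ, ‖ζ‖ = 1 → ‖ω‖ = 1 → ∀ P ∈ (Mab a b).X, F (act2 a b ζ ω P) = F P) ∧
      ∀ y ∈ Box2, F (pol2 y) = f y := by
  choose! σ τ x hx hσ0 hσ1 hτ0 hτ1 ha0 ha1 hb0 hb1 hP using hE1 a b hab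
  have key : ∀ P ∈ (Mab a b).X, ∀ y ∈ Box2, ∀ ζ ω : ℂ, ‖ζ‖ = 1 → ‖ω‖ = 1 →
      P = act2 a b ζ ω (pol2 y) → f (x P) = f y := by
    intro P hPX y hy ζ ω hζ hω h
    have hζ0 : Complex.exp (σ P * Complex.I) ≠ 0 := Complex.exp_ne_zero _
    have hω0 : Complex.exp (τ P * Complex.I) ≠ 0 := Complex.exp_ne_zero _
    have h1 := hP P hPX
    refine hE2 a b hab Y f hf y hy (x P) (hx P hPX) ((Complex.exp (σ P * Complex.I))⁻¹ * ζ)
      ((Complex.exp (τ P * Complex.I))⁻¹ * ω) ?_ ?_ ?_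
    · rw [norm_mul, norm_inv, norm_expI, hζ, inv_one, one_mul]
    · rw [norm_mul, norm_inv, norm_expI, hω, inv_one, one_mul]
    · have h5 := congrArg (act2 a b (Complex.exp (σ P * Complex.I))⁻¹
        (Complex.exp (τ P * Complex.I))⁻¹) h1
      rw [act2_act2, inv_mul_cancel₀ hζ0, inv_mul_cancel₀ hω0, act2_one] at h5
      rw [← act2_act2, ← h]
      exact h5.symm
  refine ⟨fun P => f (x P), ?_, ?_, ?_⟩
  · set K : Set ((ℝ × ℝ) × R4) := (Icc 0 (2 * Real.pi) ×ˢ Icc 0 (2 * Real.pi)) ×ˢ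
      (Icc 0 (Real.pi / 2) ×ˢ (Icc 0 (Real.pi / 2) ×ˢ
        (Icc 0 (2 * Real.pi) ×ˢ Icc 0 (2 * Real.pi)))) with hK
    have hKc : IsCompact K := (isCompact_Icc.prod isCompact_Icc).prod
      (isCompact_Icc.prod (isCompact_Icc.prod (isCompact_Icc.prod isCompact_Icc)))
    have hKB : ∀ z ∈ K, z.2 ∈ Box2 := by
      rintro z ⟨-, h1, h2, -⟩
      exact ⟨h1.1, h1.2, h2.1, h2.2⟩
    have hfK : ContinuousOn (fun z : (ℝ × ℝ) × R4 => f z.2) K := hc.comp continuousOn_snd hKB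
    rw [continuousOn_iff_isClosed]
    intro C hC
    have h1 : IsClosed (K ∩ (fun z : (ℝ × ℝ) × R4 => f z.2) ⁻¹' C) :=
      hfK.preimage_isClosed_of_isClosed hKc.isClosed hC
    have h2 : IsCompact (K ∩ (fun z : (ℝ × ℝ) × R4 => f z.2) ⁻¹' C) :=
      hKc.of_isClosed_subset h1 inter_subset_left
    have h3 := (h2.image (continuous_q2 a b)).isClosed
    refine ⟨_, h3, ?_⟩
    ext P
    constructor
    · rintro ⟨hPC, hPX⟩
      refine ⟨⟨((σ P, τ P), x P), ⟨⟨⟨⟨hσ0 P hPX, hσ1 P hPX⟩, ⟨hτ0 P hPX, hτ1 P hPX⟩⟩,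
        ⟨⟨(hx P hPX).1, (hx P hPX).2.1⟩, ⟨(hx P hPX).2.2.1, (hx P hPX).2.2.2⟩,
        ⟨ha0 P hPX, ha1 P hPX⟩, ⟨hb0 P hPX, hb1 P hPX⟩⟩⟩, hPC⟩,
        (hP P hPX).symm⟩, hPX⟩
    · rintro ⟨⟨z, ⟨hzK, hzC⟩, hz⟩, hPX⟩
      refine ⟨?_, hPX⟩
      show f (x P) ∈ C
      rw [key P hPX z.2 (hKB z hzK) _ _ (norm_expI z.1.1) (norm_expI z.1.2) hz.symm]
      exact hzC
  · intro ζ ω hζ hω P hPX
    have h1 := hP P hPX
    refine key (act2 a b ζ ω P) (act2_mem a b ζ ω hζ hω P hPX) (x P) (hx P hPX)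
      (ζ * Complex.exp (σ P * Complex.I)) (ω * Complex.exp (τ P * Complex.I)) ?_ ?_ ?_
    · rw [norm_mul, hζ, norm_expI, one_mul]
    · rw [norm_mul, hω, norm_expI, one_mul]
    · rw [← act2_act2, ← h1]
  · intro y hy
    exact key (pol2 y) (pol2_mem a b y) y hy 1 1 norm_one norm_one (act2_one a b _).symm

theorem goalDES2 (hE1 : G_E1) (hE2 : G_E2) (hISO : Pool.Agent.Helper61.QS.G_ISO) : G_DES2 := by
  rintro a b hab n e he ⟨N, f, h1, h2, h3, h4⟩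
  have hF := fun j => descend hE1 hE2 a b hab (En n) (f j) (h1 j).2 (h1 j).1
  choose F hF1 hF2 hF3 using hF
  have hex : ∀ P ∈ (Mab a b).X, ∃ y ∈ Box2, (∀ j, F j P = f j y) ∧ e P = e (pol2 y) := by
    intro P hP
    obtain ⟨σ, τ, y, hy, -, -, -, -, -, -, -, -, hPe⟩ := hE1 a b hab P hP
    refine ⟨y, hy, fun j => ?_, ?_⟩
    · rw [hPe, hF2 j _ _ (norm_expI σ) (norm_expI τ) _ (pol2_mem a b y), hF3 j y hy]
    · rw [hPe]
      exact he _ ⟨_, _, norm_expI σ, norm_expI τ, rfl⟩ _ (pol2_mem a b y)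
  refine ⟨N, F, hF1, ?_, ?_, ?_, ?_⟩
  · rintro j g ⟨ζ, ω, hζ, hω, rfl⟩ P hP
    exact hF2 j ζ ω hζ hω P hP
  · intro j P hP
    obtain ⟨y, hy, hj, -⟩ := hex P hP
    obtain ⟨g1, g2, g3⟩ := h2 j y hy
    have hr := (hISO n (f j y) g1 g2).1
    rw [hj j]
    refine ⟨g1, g2, ?_⟩
    rcases g3 with g3 | ⟨g3, g4⟩
    · left
      rw [g3] at hr
      exact_mod_cast hr.symm
    · right
      rw [g3] at hr
      exact ⟨by exact_mod_cast hr.symm, g4⟩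
  · intro i j hij P hP
    obtain ⟨y, hy, hj, -⟩ := hex P hP
    rw [hj i, hj j]
    exact h3 i j hij y hy
  · intro P hP
    obtain ⟨y, hy, hj, hj2⟩ := hex P hP
    have h5 : ∑ j, f j y = e (pol2 y) := h4 y hy
    rw [hj2, ← h5]
    exact Finset.sum_congr rfl fun j _ => hj j

end Pool.Agent.Helper82.QT
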